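import Pool.Agent.V1185.Orth.Final

open scoped ContDiff

namespace Pool.Agent.Results.MP_3ec6ac_an.LimitCycle

/-- `O` is a non-constant periodic orbit of the vector field `X` on `ℝ²`. -/
def IsPeriodicOrbit (X : ℝ × ℝ → ℝ × ℝ) (O : Set (ℝ × ℝ)) : Prop :=
  ∃ γ : ℝ → ℝ × ℝ, (∀ t, HasDerivAt γ (X (γ t)) t) ∧ (∃ T > 0, ∀ t, γ (t + T) = γ t) ∧
    (∃ t, γ t ≠ γ 0) ∧ O = Set.range γ

/-- `O` is a limit cycle of `X`: a periodic orbit with a neighbourhood which contains no other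
periodic orbit. -/
def IsLimitCycle (X : ℝ × ℝ → ℝ × ℝ) (O : Set (ℝ × ℝ)) : Prop :=
  IsPeriodicOrbit X O ∧ ∃ U : Set (ℝ × ℝ), IsOpen U ∧ O ⊆ U ∧
    ∀ O', IsPeriodicOrbit X O' → O' ⊆ U → O' = O

/-- The two columns of the Jacobian matrix of `X = (P, Q)` are orthogonal everywhere:
`P_x P_y + Q_x Q_y = 0`. -/
def OrthogonalColumns (X : ℝ × ℝ → ℝ × ℝ) : Prop :=
  ∀ z : ℝ × ℝ, (fderiv ℝ X z (1, 0)).1 * (fderiv ℝ X z (0, 1)).1 +
    (fderiv ℝ X z (1, 0)).2 * (fderiv ℝ X z (0, 1)).2 = 0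

/-- There is a smooth vector field on `ℝ²` with orthogonal Jacobian columns and a limit cycle. -/
theorem result : ∃ X : ℝ × ℝ → ℝ × ℝ, ContDiff ℝ ∞ X ∧ OrthogonalColumns X ∧
    ∃ O, IsLimitCycle X O :=
  ⟨Pool.Agent.V1185.Orth.Xf, Pool.Agent.V1185.Orth.Xf_smooth, Pool.Agent.V1185.Orth.orth,
    Pool.Agent.V1185.Orth.main⟩

end Pool.Agent.Results.MP_3ec6ac_an.LimitCycle
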